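import Pool.Agent.SOR.Stmts2

/-!
# Squad SOR, row INV: exactly invariant lifts
-/

open scoped BigOperators

noncomputable section

namespace Pool.Agent.SOR.H95

open Pool.Agent.SOR

theorem mem_of_zpow {Y : Type} {R : Subring ℚ} {s : Equiv.Perm Y} {f : Y → ℚ}
    (h : ∀ y, f (s y) - f y ∈ R) (k : ℤ) : ∀ y, f ((s ^ k) y) - f y ∈ R := by
  induction k using Int.induction_on with
  | zero =>
    intro y
    simp
  | succ n ih =>
    intro y
    have h1 := ih (s y)
    have h2 := h y
    have h3 : (s ^ ((n : ℤ) + 1)) y = (s ^ (n : ℤ)) (s y) := by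
      rw [zpow_add_one, Equiv.Perm.mul_apply]
    rw [h3]
    have h4 := R.add_mem h1 h2
    rwa [sub_add_sub_cancel] at h4
  | pred n ih =>
    intro y
    have h1 := ih (s⁻¹ y)
    have h2 := h (s⁻¹ y)
    rw [← Equiv.Perm.mul_apply, mul_inv_cancel, Equiv.Perm.one_apply] at h2
    have h3 : (s ^ (-(n : ℤ) - 1)) y = (s ^ (-(n : ℤ))) (s⁻¹ y) := by
      rw [zpow_sub_one, Equiv.Perm.mul_apply]
    rw [h3]
    have h4 := R.sub_mem h1 h2
    rwa [sub_sub_sub_cancel_right] at h4

theorem inv : InvStmt := by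
  intro Y R s f h
  let S : Setoid Y := Equiv.Perm.SameCycle.setoid s
  refine ⟨fun y => f (Quotient.out (Quotient.mk S y)), ?_, ?_⟩
  · intro y
    have : Quotient.mk S (s y) = Quotient.mk S y := by
      apply Quotient.sound
      change Equiv.Perm.SameCycle s (s y) y
      exact Equiv.Perm.sameCycle_apply_left.2 (Equiv.Perm.SameCycle.refl s y)
    simp only [this]
  · intro y
    have h1 : S (Quotient.out (Quotient.mk S y)) y := Quotient.mk_out (s := S) y
    have h2 : Equiv.Perm.SameCycle s y (Quotient.out (Quotient.mk S y)) :=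
      Equiv.Perm.SameCycle.symm h1
    obtain ⟨k, hk⟩ := h2
    have h3 := mem_of_zpow h k y
    rw [hk] at h3
    exact h3

end Pool.Agent.SOR.H95
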